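import Pool.Agent.H474.MS.Stm

/-!
Project MS (helper474), task L6: dominated convergence (helper79).
-/

set_option autoImplicit false

open MeasureTheory Filter Topology Set

namespace Pool.Agent.H79.MS.L6

open Pool.Agent.H474.MS

/-- the kernel -/
noncomputable def kk (κ : ℝ) : ℝ := (κ ^ 2 - 1) * Real.exp (-(κ ^ 2 / 2))

theorem kk_cont : Continuous kk := by
  unfold kk
  fun_prop

theorem mom (n : ℕ) : IntegrableOn (fun κ : ℝ => κ ^ n * Real.exp (-(κ ^ 2 / 2))) (Ioi 0) := by
  have h := integrableOn_rpow_mul_exp_neg_mul_sq (b := 1 / 2) (by norm_num) (s := (n : ℝ))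
    (by have : (0 : ℝ) ≤ n := Nat.cast_nonneg n
        linarith)
  refine h.congr_fun (fun κ _ => ?_) measurableSet_Ioi
  simp only [Real.rpow_natCast]
  congr 2
  ring

theorem kk_int : IntegrableOn kk (Ioi 0) := by
  refine ((mom 2).sub (mom 0)).congr_fun (fun κ _ => ?_) measurableSet_Ioi
  unfold kk
  simp only [Pi.sub_apply]
  ring

theorem kk_int' : IntegrableOn (fun κ => |kk κ| * κ) (Ioi 0) := by
  have h : IntegrableOn (fun κ => kk κ * κ) (Ioi 0) := by
    refine ((mom 3).sub (mom 1)).congr_fun (fun κ _ => ?_) measurableSet_Ioi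
    unfold kk
    simp only [Pi.sub_apply]
    ring
  have h2 : IntegrableOn (fun κ => ‖kk κ * κ‖) (Ioi 0) := h.norm
  refine h2.congr_fun (fun κ hκ => ?_) measurableSet_Ioi
  have hκ' : (0 : ℝ) < κ := hκ
  simp only [Real.norm_eq_abs, abs_mul, abs_of_pos hκ']

variable {ι : Type} {w g : ι → ℝ}

theorem term_nonneg (hd : Dat w g) (i : ι) (x : ℝ) : 0 ≤ w i * (2 * (1 - Real.cos x)) :=
  mul_nonneg (hd.w0 i) (mul_nonneg (by norm_num) (sub_nonneg.2 (Real.cos_le_one x)))

theorem term_le (hd : Dat w g) (i : ι) (x : ℝ) : w i * (2 * (1 - Real.cos x)) ≤ 4 * w i := by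
  have h := Real.neg_one_le_cos x
  nlinarith [hd.w0 i]

theorem SS_summable (hd : Dat w g) (h : ℝ) :
    Summable fun i => w i * (2 * (1 - Real.cos (g i * h))) :=
  Summable.of_nonneg_of_le (fun i => term_nonneg hd i _) (fun i => term_le hd i _)
    (hd.ws.mul_left 4)

theorem SS_nonneg (hd : Dat w g) (h : ℝ) : 0 ≤ SS w g h :=
  tsum_nonneg fun i => term_nonneg hd i _

theorem SS_le (hd : Dat w g) (h : ℝ) : SS w g h ≤ 4 * ∑' i, w i := by
  unfold SS
  rw [← tsum_mul_left]
  exact (SS_summable hd h).tsum_le_tsum (fun i => term_le hd i _) (hd.ws.mul_left 4)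

theorem SS_cont (hd : Dat w g) : Continuous (SS w g) := by
  unfold SS
  refine continuous_tsum (u := fun i => 4 * w i) (fun i => by fun_prop) (hd.ws.mul_left 4)
    fun i h => ?_
  rw [Real.norm_of_nonneg (term_nonneg hd i _)]
  exact term_le hd i _

/-- the representation of the Gaussian sum -/
theorem rep [Countable ι] (h5 : S_L5) (hd : Dat w g) {y : ℝ} :
    √(2 * Real.pi) * (y ^ 2 * GG w g y) = ∫ κ in Ioi (0 : ℝ), kk κ * SS w g (y * κ) := by
  have hI : ∀ i, Integrable (fun κ : ℝ => w i * (kk κ * (2 * (1 - Real.cos (g i * y * κ)))))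
      (volume.restrict (Ioi 0)) := by
    intro i
    refine Integrable.const_mul ?_ (w i)
    refine Integrable.mono' ((kk_int.norm).const_mul 4) ?_ (Eventually.of_forall fun κ => ?_)
    · exact (kk_cont.mul (by fun_prop)).aestronglyMeasurable
    · rw [norm_mul, mul_comm]
      refine mul_le_mul_of_nonneg_right ?_ (norm_nonneg _)
      rw [Real.norm_eq_abs, abs_le]
      have h1 := Real.neg_one_le_cos (g i * y * κ)
      have h2 := Real.cos_le_one (g i * y * κ)
      constructor <;> linarith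
  have hS : Summable fun i => ∫ κ in Ioi (0 : ℝ),
      ‖w i * (kk κ * (2 * (1 - Real.cos (g i * y * κ))))‖ := by
    refine Summable.of_nonneg_of_le (fun i => integral_nonneg fun κ => norm_nonneg _) (fun i => ?_)
      (hd.ws.mul_right (∫ κ in Ioi (0 : ℝ), 4 * ‖kk κ‖))
    rw [← integral_const_mul]
    refine integral_mono (hI i).norm ((kk_int.norm.const_mul 4).const_mul (w i)) fun κ => ?_
    simp only
    rw [norm_mul, Real.norm_of_nonneg (hd.w0 i), norm_mul, mul_comm ‖kk κ‖]
    refine mul_le_mul_of_nonneg_left ?_ (hd.w0 i)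
    refine mul_le_mul_of_nonneg_right ?_ (norm_nonneg _)
    rw [Real.norm_eq_abs, abs_le]
    have h1 := Real.neg_one_le_cos (g i * y * κ)
    have h2 := Real.cos_le_one (g i * y * κ)
    constructor <;> linarith
  have key := integral_tsum_of_summable_integral_norm hI hS
  have e1 : ∀ κ : ℝ, ∑' i, w i * (kk κ * (2 * (1 - Real.cos (g i * y * κ)))) =
      kk κ * SS w g (y * κ) := by
    intro κ
    unfold SS
    rw [← tsum_mul_left]
    refine tsum_congr fun i => ?_
    rw [mul_assoc (g i)]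
    ring
  simp_rw [e1] at key
  rw [← key]
  unfold GG
  rw [← tsum_mul_left, ← tsum_mul_left]
  refine tsum_congr fun i => ?_
  rw [integral_const_mul]
  have h := h5 (g i * y)
  unfold kk
  rw [h, mul_pow]
  ring

theorem t_L6 (h5 : Pool.Agent.H474.MS.S_L5) (h5b : Pool.Agent.H474.MS.S_L5b) :
    Pool.Agent.H474.MS.S_L6 := by
  intro ι _ w g hd β hβ
  -- the bound `SS u ≤ C u`
  obtain ⟨C, hC⟩ : ∃ C : ℝ, ∀ u : ℝ, 0 < u → SS w g u ≤ C * u := by
    have h1 : ∀ᶠ h in 𝓝[>] (0 : ℝ), SS w g h / h < |β| + 1 :=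
      hβ.eventually_lt_const ((le_abs_self β).trans_lt (lt_add_one _))
    obtain ⟨δ, hδ, h2⟩ := mem_nhdsGT_iff_exists_Ioo_subset.1 h1
    have hδ' : (0 : ℝ) < δ := hδ
    have hW : 0 ≤ ∑' i, w i := tsum_nonneg hd.w0
    refine ⟨|β| + 1 + 4 * (∑' i, w i) / δ, fun u hu => ?_⟩
    rcases lt_or_ge u δ with h | h
    · have h3 : SS w g u / u < |β| + 1 := h2 ⟨hu, h⟩
      rw [div_lt_iff₀ hu] at h3
      have h4 : 0 ≤ 4 * (∑' i, w i) / δ * u := by positivity
      linarith
    · have h3 := SS_le hd u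
      have h4 : 4 * ∑' i, w i ≤ 4 * (∑' i, w i) / δ * u := by
        rw [div_mul_eq_mul_div, le_div_iff₀ hδ']
        exact mul_le_mul_of_nonneg_left h (by positivity)
      have h5 : 0 ≤ (|β| + 1) * u := by positivity
      linarith
  have hC0 : 0 ≤ C := by
    have h1 := (SS_nonneg hd 1).trans (hC 1 one_pos)
    linarith
  -- dominated convergence
  have hlim : Tendsto (fun y : ℝ => ∫ κ in Ioi (0 : ℝ), kk κ * (SS w g (y * κ) / y)) (𝓝[>] 0)
      (𝓝 (∫ κ in Ioi (0 : ℝ), kk κ * (β * κ))) := by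
    refine tendsto_integral_filter_of_dominated_convergence (fun κ => C * (|kk κ| * κ)) ?_ ?_
      (kk_int'.const_mul C) ?_
    · refine Eventually.of_forall fun y => ?_
      exact (kk_cont.mul (((SS_cont hd).comp (by fun_prop)).div_const y)).aestronglyMeasurable
    · filter_upwards [self_mem_nhdsWithin] with y hy
      have hy' : (0 : ℝ) < y := hy
      rw [ae_restrict_iff' measurableSet_Ioi]
      refine Eventually.of_forall fun κ hκ => ?_
      have hκ' : (0 : ℝ) < κ := hκ
      rw [norm_mul, Real.norm_eq_abs, Real.norm_of_nonneg (div_nonneg (SS_nonneg hd _) hy'.le)]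
      have h1 : SS w g (y * κ) / y ≤ C * κ := by
        rw [div_le_iff₀ hy']
        have h2 := hC (y * κ) (by positivity)
        linarith
      calc |kk κ| * (SS w g (y * κ) / y) ≤ |kk κ| * (C * κ) :=
            mul_le_mul_of_nonneg_left h1 (abs_nonneg _)
        _ = _ := by ring
    · rw [ae_restrict_iff' measurableSet_Ioi]
      refine Eventually.of_forall fun κ hκ => ?_
      have hκ' : (0 : ℝ) < κ := hκ
      have h1 : Tendsto (fun y : ℝ => y * κ) (𝓝[>] 0) (𝓝[>] 0) := by
        refine tendsto_nhdsWithin_iff.2 ⟨?_, ?_⟩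
        · have h2 : Tendsto (fun y : ℝ => y * κ) (𝓝 0) (𝓝 (0 * κ)) :=
            tendsto_id.mul_const κ
          rw [zero_mul] at h2
          exact h2.mono_left nhdsWithin_le_nhds
        · filter_upwards [self_mem_nhdsWithin] with y hy
          exact mul_pos hy hκ'
      have h3 : Tendsto (fun y : ℝ => SS w g (y * κ) / (y * κ) * κ) (𝓝[>] 0) (𝓝 (β * κ)) :=
        (hβ.comp h1).mul_const κ
      have h4 : Tendsto (fun y : ℝ => SS w g (y * κ) / y) (𝓝[>] 0) (𝓝 (β * κ)) := by
        refine h3.congr' ?_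
        filter_upwards [self_mem_nhdsWithin] with y hy
        have hy' : (0 : ℝ) < y := hy
        field_simp
      exact h4.const_mul (kk κ)
  have e1 : ∫ κ in Ioi (0 : ℝ), kk κ * (β * κ) = β := by
    have h1 : ∀ κ : ℝ, kk κ * (β * κ) = β * ((κ ^ 2 - 1) * Real.exp (-(κ ^ 2 / 2)) * κ) := by
      intro κ
      unfold kk
      ring
    simp_rw [h1]
    rw [integral_const_mul]
    have h2 : ∫ κ in Ioi (0 : ℝ), (κ ^ 2 - 1) * Real.exp (-(κ ^ 2 / 2)) * κ = 1 := h5b
    rw [h2, mul_one]
  rw [e1] at hlim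
  have hs : 0 < √(2 * Real.pi) := Real.sqrt_pos.2 (by positivity)
  refine (hlim.div_const (√(2 * Real.pi))).congr' ?_
  filter_upwards [self_mem_nhdsWithin] with y hy
  have hy' : (0 : ℝ) < y := hy
  have h1 := rep (y := y) h5 hd
  have h2 : ∫ κ in Ioi (0 : ℝ), kk κ * (SS w g (y * κ) / y) =
      (∫ κ in Ioi (0 : ℝ), kk κ * SS w g (y * κ)) / y := by
    rw [← integral_div]
    refine integral_congr_ae (Eventually.of_forall fun κ => ?_)
    simp only
    ring
  rw [h2, ← h1]
  field_simp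

end Pool.Agent.H79.MS.L6
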